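import Pool.Agent.Helper80_PND.Stmts

/-!
# PCB: the piece is free of `B`
-/

set_option autoImplicit false

open SimpleGraph

namespace Pool.Agent.PND80.H76

open Pool.Agent.RS80 Pool.Agent.RS81 Pool.Agent.SEP60 Pool.Agent.TWC80 Pool.Agent.PND80

variable {V : Type} {M N a : ℕ}

/-- the side of a vertex: test points and private hubs against the rest -/
def side : Ix V M N ⊕ Qx V a → Bool
  | .inl (.inl _) => true
  | .inl (.inr _) => false
  | .inr (.inl _) => true
  | .inr (.inr _) => false

theorem side_cp (x y i j : V) (c : Fin N) (w : V) :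
    side (cp x y i j c w : Ix V M N ⊕ Qx V a) = false := by
  classical
  unfold cp
  by_cases h1 : w = x
  · rw [if_pos h1]; rfl
  · rw [if_neg h1]
    by_cases h2 : w = y
    · rw [if_pos h2]; rfl
    · rw [if_neg h2]; rfl

theorem cp_x (x y i j : V) (c : Fin N) :
    (cp x y i j c x : Ix V M N ⊕ Qx V a) = .inr (.inr i) := by
  classical
  unfold cp
  rw [if_pos rfl]

theorem cp_y {x y : V} (h : y ≠ x) (i j : V) (c : Fin N) :
    (cp x y i j c y : Ix V M N ⊕ Qx V a) = .inr (.inr j) := by
  classical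
  unfold cp
  rw [if_neg h, if_pos rfl]

theorem cp_w {x y w : V} (h1 : w ≠ x) (h2 : w ≠ y) (i j : V) (c : Fin N) :
    (cp x y i j c w : Ix V M N ⊕ Qx V a) = .inl (.inr (i, j, c, w)) := by
  classical
  unfold cp
  rw [if_neg h1, if_neg h2]

/-- the relation of the closing copies -/
def rl (B : SimpleGraph V) (κ : V → Bool) (x y : V) (a M N : ℕ) (u v : Ix V M N ⊕ Qx V a) : Prop :=
  ∃ i j c w w', B.Adj i j ∧ κ i = κ x ∧ B.Adj w w' ∧ s(w, w') ≠ s(x, y) ∧
      u = cp x y i j c w ∧ v = cp x y i j c w'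

theorem pcs_adj {B : SimpleGraph V} {κ : V → Bool} {x y : V} {u v : Ix V M N ⊕ Qx V a}
    (h : (pcs B κ x y a M N).Adj u v) :
    (side u = true ∧ side v = true ∧ ((∃ m h, u = .inl (.inl m) ∧ v = .inr (.inl h)) ∨
      (∃ m h, v = .inl (.inl m) ∧ u = .inr (.inl h)))) ∨
    (side u = false ∧ side v = false ∧ (SimpleGraph.fromRel (rl B κ x y a M N)).Adj u v) := by
  unfold pcs at h
  rw [SimpleGraph.fromRel_adj] at h
  obtain ⟨hne, h | h⟩ := h
  · rcases h with ⟨m, h, rfl, rfl⟩ | h
    · exact .inl ⟨rfl, rfl, .inl ⟨m, h, rfl, rfl⟩⟩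
    · refine .inr ?_
      have h' : rl B κ x y a M N u v := h
      obtain ⟨i, j, c, w, w', _, _, _, _, rfl, rfl⟩ := h
      exact ⟨side_cp _ _ _ _ _ _, side_cp _ _ _ _ _ _, by
        rw [SimpleGraph.fromRel_adj]; exact ⟨hne, .inl h'⟩⟩
  · rcases h with ⟨m, h, rfl, rfl⟩ | h
    · exact .inl ⟨rfl, rfl, .inr ⟨m, h, rfl, rfl⟩⟩
    · refine .inr ?_
      have h' : rl B κ x y a M N v u := h
      obtain ⟨i, j, c, w, w', _, _, _, _, rfl, rfl⟩ := h
      exact ⟨side_cp _ _ _ _ _ _, side_cp _ _ _ _ _ _, by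
        rw [SimpleGraph.fromRel_adj]; exact ⟨hne, .inr h'⟩⟩

theorem side_const {B : SimpleGraph V} {κ : V → Bool} {x y : V} (hB : B.Connected)
    (f : V → Ix V M N ⊕ Qx V a) (hf : ∀ u v, B.Adj u v → (pcs B κ x y a M N).Adj (f u) (f v))
    (u v : V) : side (f u) = side (f v) := by
  obtain ⟨p⟩ := hB.preconnected u v
  induction p with
  | nil => rfl
  | cons h _ ih =>
    rw [← ih]
    rcases pcs_adj (hf _ _ h) with h1 | h1
    · rw [h1.1, h1.2.1]
    · rw [h1.1, h1.2.1]

/-- the place of a private hub or a test point -/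
def pl {V : Type} {a M N : ℕ} : Fin a ⊕ Fin M → Ix V M N ⊕ Qx V a
  | .inl h => .inr (.inl h)
  | .inr m => .inl (.inl m)

theorem pl_inj : Function.Injective (pl : Fin a ⊕ Fin M → Ix V M N ⊕ Qx V a) := by
  intro u v h
  rcases u with u | u <;> rcases v with v | v <;> simp [pl] at h ⊢ <;> exact h

theorem pl_surj {u : Ix V M N ⊕ Qx V a} (h : side u = true) :
    ∃ z : Fin a ⊕ Fin M, pl z = u := by
  rcases u with (m | q) | (h' | i)
  · exact ⟨.inr m, rfl⟩
  · exact absurd h (by simp [side])
  · exact ⟨.inl h', rfl⟩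
  · exact absurd h (by simp [side])

/-- the folding map -/
noncomputable def rh (κ : V → Bool) (x y : V) : Ix V M N ⊕ Qx V a → V
  | .inl (.inl _) => x
  | .inl (.inr q) => q.2.2.2
  | .inr (.inl _) => x
  | .inr (.inr i) => if κ i = κ x then x else y

theorem pcb (xfr : XfrStmt) : PcbStmt := by
  classical
  intro V _ B κ hB hκ x y hxy a M N hfree hc
  obtain ⟨f⟩ := hc
  have hfadj : ∀ u v, B.Adj u v → (pcs B κ x y a M N).Adj (f u) (f v) := fun u v h =>
    f.toHom.map_adj h
  have hfinj : Function.Injective f := f.injective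
  have hyx : y ≠ x := hxy.ne'
  rcases hs : side (f x) with _ | _
  · -- the closing copies
    have hall : ∀ u, side (f u) = false := fun u => by
      rw [side_const hB.2.1 f hfadj u x, hs]
    have key : B.Free (SimpleGraph.fromRel (rl B κ x y a M N)) := by
      refine xfr V (Ix V M N ⊕ Qx V a) {t : V × V × Fin N // B.Adj t.1 t.2.1 ∧ κ t.1 = κ x} B hB
        x y hxy _ (fun t w => cp x y t.1.1 t.1.2.1 t.1.2.2 w) (rh κ x y) ?_ ?_ ?_
      · rintro ⟨⟨i, j, c⟩, hij, hi⟩ w
        simp only at hij hi ⊢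
        by_cases h1 : w = x
        · subst h1
          rw [cp_x]
          simp only [rh]
          rw [if_pos hi]
        · by_cases h2 : w = y
          · subst h2
            rw [cp_y h1]
            simp only [rh]
            rw [if_neg]
            intro h3
            exact hκ _ _ hij (hi.trans h3.symm)
          · rw [cp_w h1 h2]
            rfl
      · intro u v huv
        rw [SimpleGraph.fromRel_adj] at huv
        obtain ⟨-, ⟨i, j, c, w, w', h1, h2, h3, h4, h5, h6⟩ | ⟨i, j, c, w, w', h1, h2, h3, h4, h5, h6⟩⟩ := huv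
        · exact ⟨⟨(i, j, c), h1, h2⟩, w, w', h3, h4, h5, h6⟩
        · refine ⟨⟨(i, j, c), h1, h2⟩, w', w, h3.symm, ?_, h6, h5⟩
          rwa [Sym2.eq_swap]
      · rintro ⟨⟨i, j, c⟩, hij, hi⟩ ⟨⟨i', j', c'⟩, hij', hi'⟩ w he hne
        by_contra hc
        push Not at hc
        simp only at he
        rw [cp_w hc.1 hc.2, cp_w hc.1 hc.2] at he
        apply hne
        simp only [Sum.inl.injEq, Sum.inr.injEq, Prod.mk.injEq, and_true] at he
        obtain ⟨rfl, rfl, rfl⟩ := he
        rfl
    apply key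
    refine ⟨⟨⟨f, ?_⟩, hfinj⟩⟩
    intro u v huv
    rcases pcs_adj (hfadj u v huv) with h1 | h1
    · rw [hall u] at h1
      exact absurd h1.1 (by simp)
    · exact h1.2.2
  · -- test points and private hubs
    have hall : ∀ u, side (f u) = true := fun u => by
      rw [side_const hB.2.1 f hfadj u x, hs]
    choose g hg using fun u => pl_surj (hall u)
    apply hfree M
    refine ⟨⟨⟨g, ?_⟩, ?_⟩⟩
    · intro u v huv
      have h0 := hfadj u v huv
      rcases pcs_adj h0 with h1 | h1
      · obtain ⟨-, -, ⟨m, h, e1, e2⟩ | ⟨m, h, e1, e2⟩⟩ := h1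
        · have g1 : g u = .inr m := pl_inj ((hg u).trans e1)
          have g2 : g v = .inl h := pl_inj ((hg v).trans e2)
          rw [g1, g2]
          simp
        · have g1 : g v = .inr m := pl_inj ((hg v).trans e1)
          have g2 : g u = .inl h := pl_inj ((hg u).trans e2)
          rw [g1, g2]
          simp
      · rw [hall u] at h1
        exact absurd h1.1 (by simp)
    · intro u v huv
      apply hfinj
      change g u = g v at huv
      rw [← hg u, ← hg v, huv]

end Pool.Agent.PND80.H76
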